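import Mathlib
import Pool.Agent.K1H68.Galvin

/-!
# κ-complete filters without the Galvin property under GCH

Let `κ` be a regular uncountable cardinal with `2 ^ μ ≤ κ` for all `μ < κ` (that is,
`κ ^ (< κ) = κ`; under GCH this holds for every regular `κ`, since `2 ^ μ = μ⁺ ≤ κ`). There is a
proper `κ`-complete filter `F` over `κ`, containing all clubs, without the Galvin property. In
fact there is a family of `2 ^ κ` members of `F` such that every member of `F` is contained in
fewer than `κ` members of the family.

Idea: take a strongly `κ`-independent family of `2 ^ κ` sets (as in the theorem of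
Fichtenholz-Kantorovich-Hausdorff) and `κ` many disjoint stationary sets.
-/

set_option autoImplicit false

namespace Pool.Agent.Results.MP_45cf3b_lc.TwoPowKappaMembers

open Cardinal Set

universe u

/-- The filter `F` over the cardinal `κ` has the Galvin property: for every sequence of `κ⁺`
members of `F` there is a set of `κ` many indices with intersection in `F`. -/
def Galvin (κ : Cardinal.{u}) (F : Filter κ.ord.ToType) : Prop :=
  ∀ A : (Order.succ κ).ord.ToType → Set κ.ord.ToType, (∀ i, A i ∈ F) →
    ∃ I : Set (Order.succ κ).ord.ToType, #I = κ ∧ ⋂ i ∈ I, A i ∈ F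

/-- The filter `F` over the cardinal `κ` is `κ`-complete: the intersection of fewer than `κ`
members of `F` is a member of `F`. -/
def Complete (κ : Cardinal.{u}) (F : Filter κ.ord.ToType) : Prop :=
  ∀ S : Set (Set κ.ord.ToType), #S < κ → (∀ s ∈ S, s ∈ F) → ⋂₀ S ∈ F

/-- For every regular uncountable `κ` such that `2 ^ μ ≤ κ` for all `μ < κ` (under GCH: for every
regular uncountable `κ`) there is a proper `κ`-complete filter `F` over `κ` which contains all the
clubs and does not have the Galvin property; moreover there is a family of `2 ^ κ` members of `F`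
(indexed by the subsets of `κ`) such that every member of `F` is contained in fewer than `κ`
members of the family. -/
theorem result (κ : Cardinal.{u}) (hκ : κ.IsRegular) (hω : ℵ₀ < κ)
    (hp : ∀ μ < κ, (2 : Cardinal.{u}) ^ μ ≤ κ) :
    ∃ F : Filter κ.ord.ToType, F.NeBot ∧ Complete κ F ∧ (∀ C, IsClub C → C ∈ F) ∧
      ¬ Galvin κ F ∧
      ∃ A : Set κ.ord.ToType → Set κ.ord.ToType, (∀ f, A f ∈ F) ∧
        ∀ X ∈ F, #{f | X ⊆ A f} < κ := by
  classical
  obtain ⟨F, h1, h2, h3, A, hA, hA2⟩ := Pool.Agent.K1H68.Galvin.main hκ hω hp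
  refine ⟨F, h1, h2, h3, fun hG => ?_, A, hA, hA2⟩
  have hX : #κ.ord.ToType = κ := by rw [Cardinal.mk_toType, card_ord]
  obtain ⟨e⟩ : Nonempty ((Order.succ κ).ord.ToType ↪ Set κ.ord.ToType) := by
    rw [← Cardinal.le_def, mk_set, hX, Cardinal.mk_toType, card_ord]
    exact Order.succ_le_of_lt (cantor κ)
  obtain ⟨I, hI, hI2⟩ := hG (fun i => A (e i)) (fun i => hA _)
  have h4 := hA2 _ hI2
  have h5 : #I ≤ #{f | ⋂ i ∈ I, A (e i) ⊆ A f} :=
    mk_le_of_injective (f := fun i : I => (⟨e i.1, fun a ha => mem_iInter₂.1 ha i.1 i.2⟩ :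
      {f | ⋂ i ∈ I, A (e i) ⊆ A f}))
      (fun i j hij => Subtype.ext (e.injective (congrArg Subtype.val hij)))
  rw [hI] at h5
  exact absurd (h5.trans_lt h4) (lt_irrefl _)

end Pool.Agent.Results.MP_45cf3b_lc.TwoPowKappaMembers
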